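import Pool.Agent.Lib_helper4.LDK.Defs
import Pool.Agent.Lib_helper18.LDK.TrP

/-!
# LDK, block GPP: continuity of `G` and the perturbation to generic blocks
-/

set_option autoImplicit false

open scoped BigOperators ComplexOrder Kronecker MatrixOrder Topology
open MeasureTheory Set Matrix Filter

namespace Pool.Agent.LDK

open Pool.Agent.RC

variable {ι κ : Type} [Fintype ι] [DecidableEq ι] [Fintype κ] [DecidableEq κ]

section norm
open scoped Matrix.Norms.L2Operator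

theorem gpp_psd_of_norm {H : Matrix κ κ ℂ} (hH : H.IsHermitian) {c : ℝ} (hc : ‖H‖ ≤ c) :
    ((c : ℂ) • (1 : Matrix κ κ ℂ) + H).PosSemidef := by
  have h1 : -(algebraMap ℝ (Matrix κ κ ℂ)) ‖H‖ ≤ H := IsSelfAdjoint.neg_algebraMap_norm_le_self hH
  rw [Matrix.le_iff] at h1
  have e : (c : ℂ) • (1 : Matrix κ κ ℂ) + H =
      (H - -(algebraMap ℝ (Matrix κ κ ℂ)) ‖H‖) + (((c - ‖H‖ : ℝ)) : ℂ) • (1 : Matrix κ κ ℂ) := by
    rw [Algebra.algebraMap_eq_smul_one, ← Complex.coe_smul ‖H‖ (1 : Matrix κ κ ℂ)]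
    push_cast
    module
  rw [e]
  apply h1.add
  apply Matrix.PosSemidef.smul Matrix.PosSemidef.one
  exact_mod_cast sub_nonneg.2 hc

theorem gpp_small_psd {H : ℝ → Matrix κ κ ℂ} (hH : ∀ t, (H t).IsHermitian) {F : Filter ℝ}
    (hc : Tendsto H F (𝓝 0)) {c : ℝ} (h0 : 0 < c) :
    ∀ᶠ t in F, ((c : ℂ) • (1 : Matrix κ κ ℂ) + H t).PosSemidef := by
  have h1 : Tendsto (fun t => ‖H t‖) F (𝓝 0) := by
    have := (continuous_norm (E := Matrix κ κ ℂ)).tendsto 0
    rw [norm_zero] at this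
    exact this.comp hc
  filter_upwards [h1.eventually (gt_mem_nhds h0)] with t ht
  exact gpp_psd_of_norm (hH t) ht.le

end norm

theorem gpp_herm_lim {As : ℕ → Matrix ι ι ℂ} {A : Matrix ι ι ℂ} (hA : ∀ n, (As n).IsHermitian)
    (tA : Tendsto As atTop (𝓝 A)) : A.IsHermitian := by
  have h1 : Tendsto (fun n => (As n)ᴴ) atTop (𝓝 Aᴴ) :=
    (continuous_id.matrix_conjTranspose.tendsto A).comp tA
  have h2 : (fun n => (As n)ᴴ) = As := funext fun n => (hA n).eq
  rw [h2] at h1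
  exact tendsto_nhds_unique h1 tA

theorem tendsto_G {α : ℝ} (h0 : 0 < α) {As Ds : ℕ → Matrix ι ι ℂ} {A D : Matrix ι ι ℂ}
    (hA : ∀ n, (As n).IsHermitian) (hD : ∀ n, (Ds n).IsHermitian)
    (tA : Tendsto As atTop (𝓝 A)) (tD : Tendsto Ds atTop (𝓝 D)) :
    Tendsto (fun n => G α (As n) (Ds n)) atTop (𝓝 (G α A D)) :=
  tendsto_G_seq h0 hA hD (gpp_herm_lim hA tA) (gpp_herm_lim hD tD) tA tD

/-- the perturbed rank two part -/
noncomputable def gppE (v w : κ → ℂ) (i j : κ) (t : ℝ) : Matrix κ κ ℂ :=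
  vecMulVec (v + (t : ℂ) • Pi.single i 1) (star (v + (t : ℂ) • Pi.single i 1)) -
    vecMulVec (w + (t : ℂ) • Pi.single j 1) (star (w + (t : ℂ) • Pi.single j 1))

theorem gppE_herm (v w : κ → ℂ) (i j : κ) (t : ℝ) : (gppE v w i j t).IsHermitian := by
  unfold gppE
  exact (Matrix.posSemidef_vecMulVec_self_star _).1.sub
    (Matrix.posSemidef_vecMulVec_self_star _).1

omit [Fintype κ] in
theorem gppE_zero (v w : κ → ℂ) (i j : κ) :
    gppE v w i j 0 = vecMulVec v (star v) - vecMulVec w (star w) := by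
  simp [gppE]

omit [Fintype κ] in
theorem continuous_gppE (v w : κ → ℂ) (i j : κ) : Continuous (gppE v w i j) := by
  have h : ∀ (u : κ → ℂ) (k : κ), Continuous fun t : ℝ => u + (t : ℂ) • (Pi.single k 1 : κ → ℂ) :=
    fun u k => continuous_const.add (Complex.continuous_ofReal.smul continuous_const)
  have h2 : ∀ (u : κ → ℂ) (k : κ), Continuous fun t : ℝ =>
      vecMulVec (u + (t : ℂ) • (Pi.single k 1 : κ → ℂ))
        (star (u + (t : ℂ) • (Pi.single k 1 : κ → ℂ))) := by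
    intro u k
    refine continuous_matrix fun a b => ?_
    simp only [vecMulVec_apply]
    exact ((continuous_apply a).comp (h u k)).mul
      ((continuous_apply b).comp (continuous_star.comp (h u k)))
  exact (h2 v i).sub (h2 w j)

theorem gpp_det_finite (p q z : ℂ) :
    {t : ℝ | (p + (t : ℂ)) * (q + (t : ℂ)) - z = 0}.Finite := by
  set P : Polynomial ℂ := (Polynomial.X + Polynomial.C p) * (Polynomial.X + Polynomial.C q) -
    Polynomial.C z with hP
  have hne : P ≠ 0 := by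
    have hm : P.natDegree = 2 := by
      rw [hP, Polynomial.natDegree_sub_C, Polynomial.natDegree_mul (Polynomial.X_add_C_ne_zero p)
        (Polynomial.X_add_C_ne_zero q)]
      simp
    intro h0
    rw [h0] at hm
    simp at hm
  have hf : (P.roots.toFinset : Set ℂ).Finite := Finset.finite_toSet _
  have := hf.preimage (Complex.ofReal_injective.injOn (s := Complex.ofReal ⁻¹' _))
  refine this.subset ?_
  intro t ht
  change (p + (t : ℂ)) * (q + (t : ℂ)) - z = 0 at ht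
  simp only [mem_preimage, Finset.mem_coe, Multiset.mem_toFinset, Polynomial.mem_roots hne,
    Polynomial.IsRoot.def]
  rw [hP]
  simp only [Polynomial.eval_sub, Polynomial.eval_mul, Polynomial.eval_add, Polynomial.eval_X,
    Polynomial.eval_C]
  rw [← ht]; ring

omit [Fintype κ] in
theorem gpp_indep {v w : κ → ℂ} {i j : κ} (hij : i ≠ j) {t : ℝ}
    (ht : (v i + (t : ℂ)) * (w j + (t : ℂ)) - v j * w i ≠ 0) :
    LinearIndependent ℂ ![v + (t : ℂ) • (Pi.single i 1 : κ → ℂ),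
      w + (t : ℂ) • (Pi.single j 1 : κ → ℂ)] := by
  rw [LinearIndependent.pair_iff]
  intro s u h
  have hi := congrFun h i
  have hj := congrFun h j
  simp [hij, hij.symm] at hi hj
  constructor
  · have : s * ((v i + (t : ℂ)) * (w j + (t : ℂ)) - v j * w i) = 0 := by
      linear_combination (w j + t) * hi - w i * hj
    exact (mul_eq_zero.1 this).resolve_right ht
  · have : u * ((v i + (t : ℂ)) * (w j + (t : ℂ)) - v j * w i) = 0 := by
      linear_combination (v i + t) * hj - v j * hi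
    exact (mul_eq_zero.1 this).resolve_right ht

theorem gpp_exists {i j : κ} (hij : i ≠ j) (v w : κ → ℂ) {c δ : ℝ} (hc : 0 < c) (hδ : 0 < δ) :
    ∃ t : ℝ, 0 < t ∧ t < δ ∧
      LinearIndependent ℂ ![v + (t : ℂ) • (Pi.single i 1 : κ → ℂ),
        w + (t : ℂ) • (Pi.single j 1 : κ → ℂ)] ∧
      ((c : ℂ) • (1 : Matrix κ κ ℂ) + (gppE v w i j t - gppE v w i j 0)).PosSemidef := by
  have h1 : Tendsto (fun t => gppE v w i j t - gppE v w i j 0) (𝓝 0) (𝓝 0) := by
    have := ((continuous_gppE v w i j).tendsto 0).sub_const (gppE v w i j 0)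
    rwa [sub_self] at this
  have h2 := gpp_small_psd (fun t => (gppE_herm v w i j t).sub (gppE_herm v w i j 0)) h1 hc
  obtain ⟨ε, hε, h3⟩ := Metric.eventually_nhds_iff.1 h2
  obtain ⟨t, ht, ht2⟩ := (Set.Ioo_infinite (lt_min hε hδ)).exists_notMem_finite
    (gpp_det_finite (v i) (w j) (v j * w i))
  refine ⟨t, ht.1, ht.2.trans_le (min_le_right _ _), gpp_indep hij ht2, ?_⟩
  apply h3
  rw [Real.dist_eq, sub_zero, abs_of_pos ht.1]
  exact ht.2.trans_le (min_le_left _ _)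

/-- a good block is a limit of generic blocks -/
theorem pert (hκ : 2 ≤ Fintype.card κ) {R S : Matrix κ κ ℂ} (hR : R.PosSemidef)
    (hS : S.PosSemidef) {l : ℝ} (hl : 0 ≤ l) (hE : Sig11 (S - (l : ℂ) • R)) :
    ∃ (Rs Ss : ℕ → Matrix κ κ ℂ) (ls : ℕ → ℝ) (vs ws : ℕ → κ → ℂ),
      (∀ n, (Rs n).PosDef ∧ (Ss n).PosSemidef ∧ 0 ≤ ls n ∧
        LinearIndependent ℂ ![vs n, ws n] ∧
        Ss n = (ls n : ℂ) • Rs n +
          (vecMulVec (vs n) (star (vs n)) - vecMulVec (ws n) (star (ws n)))) ∧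
      Tendsto Rs atTop (𝓝 R) ∧ Tendsto Ss atTop (𝓝 S) := by
  obtain ⟨v, w, hvw⟩ := hE
  obtain ⟨i, j, hij⟩ := Fintype.one_lt_card_iff.1 (by omega : 1 < Fintype.card κ)
  have hd : ∀ n : ℕ, (0 : ℝ) < 1 / ((n : ℝ) + 1) := fun n => Nat.one_div_pos_of_nat
  choose t ht0 ht1 ht2 ht3 using fun n : ℕ => gpp_exists hij v w
    (mul_pos (add_pos_of_nonneg_of_pos hl (hd n)) (hd n)) (hd n)
  have td : Tendsto (fun n : ℕ => (1 : ℝ) / ((n : ℝ) + 1)) atTop (𝓝 0) :=
    tendsto_one_div_add_atTop_nhds_zero_nat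
  have tdc : Tendsto (fun n : ℕ => ((1 / ((n : ℝ) + 1) : ℝ) : ℂ)) atTop (𝓝 0) := by
    have := (Complex.continuous_ofReal.tendsto 0).comp td
    rw [Complex.ofReal_zero] at this
    exact this
  have tt : Tendsto t atTop (𝓝 0) :=
    squeeze_zero (fun n => (ht0 n).le) (fun n => (ht1 n).le) td
  have tR : Tendsto (fun n : ℕ => R + ((1 / ((n : ℝ) + 1) : ℝ) : ℂ) • (1 : Matrix κ κ ℂ)) atTop
      (𝓝 R) := by
    have := (tdc.smul_const (1 : Matrix κ κ ℂ)).const_add R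
    simpa using this
  have tE : Tendsto (fun n => gppE v w i j (t n)) atTop (𝓝 (S - (l : ℂ) • R)) := by
    have := ((continuous_gppE v w i j).tendsto 0).comp tt
    rw [gppE_zero, ← hvw] at this
    exact this
  have tl : Tendsto (fun n : ℕ => ((l + 1 / ((n : ℝ) + 1) : ℝ) : ℂ)) atTop (𝓝 (l : ℂ)) := by
    have := (Complex.continuous_ofReal.tendsto (l + 0)).comp (td.const_add l)
    rw [add_zero] at this
    exact this
  refine ⟨fun n => R + ((1 / ((n : ℝ) + 1) : ℝ) : ℂ) • (1 : Matrix κ κ ℂ),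
    fun n => ((l + 1 / ((n : ℝ) + 1) : ℝ) : ℂ) •
      (R + ((1 / ((n : ℝ) + 1) : ℝ) : ℂ) • (1 : Matrix κ κ ℂ)) + gppE v w i j (t n),
    fun n => l + 1 / ((n : ℝ) + 1), fun n => v + (t n : ℂ) • (Pi.single i 1 : κ → ℂ),
    fun n => w + (t n : ℂ) • (Pi.single j 1 : κ → ℂ), ?_, tR, ?_⟩
  · intro n
    refine ⟨?_, ?_, (add_pos_of_nonneg_of_pos hl (hd n)).le, ht2 n, rfl⟩
    · apply Matrix.PosDef.posSemidef_add hR
      exact Matrix.PosDef.smul Matrix.PosDef.one (by exact_mod_cast hd n)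
    · have h1 := ht3 n
      rw [gppE_zero, ← hvw] at h1
      have h2 : ((((1 / ((n : ℝ) + 1)) : ℝ) : ℂ) • R).PosSemidef :=
        hR.smul (by exact_mod_cast (hd n).le)
      have e : ((l + 1 / ((n : ℝ) + 1) : ℝ) : ℂ) •
          (R + ((1 / ((n : ℝ) + 1) : ℝ) : ℂ) • (1 : Matrix κ κ ℂ)) + gppE v w i j (t n) =
          S + (((1 / ((n : ℝ) + 1)) : ℝ) : ℂ) • R +
            ((((l + 1 / ((n : ℝ) + 1)) * (1 / ((n : ℝ) + 1)) : ℝ) : ℂ) • (1 : Matrix κ κ ℂ) +
              (gppE v w i j (t n) - (S - (l : ℂ) • R))) := by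
        generalize (1 / ((n : ℝ) + 1) : ℝ) = d
        push_cast
        module
      show (((l + 1 / ((n : ℝ) + 1) : ℝ) : ℂ) •
          (R + ((1 / ((n : ℝ) + 1) : ℝ) : ℂ) • (1 : Matrix κ κ ℂ)) + gppE v w i j (t n)).PosSemidef
      rw [e]
      exact (hS.add h2).add h1
  · have := (tl.smul tR).add tE
    rw [add_sub_cancel] at this
    exact this

end Pool.Agent.LDK
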