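import Pool.Agent.Lib_helper18.LDK.Blk
import Pool.Agent.Lib_helper52.LDK.Gpp

/-!
# LDK, block GPP: the perturbation statement used by block BLK
-/

set_option autoImplicit false

namespace Pool.Agent.LDK

theorem pertSt : PertSt := fun _ _ _ hκ _ _ hR hS _ hl hE => pert hκ hR hS hl hE

end Pool.Agent.LDK
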